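import Mathlib

/-!
# Semisimple Lie algebras of similitudes which contain a full torus

Let `V` be a symplectic space with a basis `b` in which the form pairs `b i` with `b (inv i)`, and
let `g` be a space of similitudes of `V` closed under commutators which contains all coroots
(`b a ↦ b a`, `b (inv a) ↦ - b (inv a)`). If `V` is semisimple under `g`, then `g` contains every
endomorphism of multiplier zero in the double commutant of `g`.
-/

namespace Pool.Agent.OneFrob

open Matrix Finset

section Mat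

variable {I : Type*} [DecidableEq I] {𝕂 : Type*} [Field 𝕂]

/-- The coroot of `a`. -/
def cor (inv : I → I) (a k : I) : ℤ := (if k = a then 1 else 0) - (if k = inv a then 1 else 0)

/-- The weight of a matrix entry. -/
def wt (inv : I → I) (a k l : I) : ℤ := cor inv a k - cor inv a l

variable (𝕂) in
/-- The coroot of `a` as a matrix. -/
def hh (inv : I → I) (a : I) : Matrix I I 𝕂 := Matrix.diagonal fun k => (cor inv a k : 𝕂)

theorem hh_bracket [Fintype I] (inv : I → I) (a : I) (x : Matrix I I 𝕂) (k l : I) :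
    (hh 𝕂 inv a * x - x * hh 𝕂 inv a) k l = (wt inv a k l : 𝕂) * x k l := by
  simp only [hh, wt, Matrix.sub_apply, Matrix.diagonal_mul, Matrix.mul_diagonal, Int.cast_sub]
  ring

theorem wt_range {inv : I → I} (a k l : I) (h : inv a ≠ a) :
    wt inv a k l = -2 ∨ wt inv a k l = -1 ∨ wt inv a k l = 0 ∨ wt inv a k l = 1 ∨
      wt inv a k l = 2 := by
  unfold wt cor
  split_ifs <;> simp_all

theorem wt_pair {inv : I → I} (hinv : ∀ i, inv (inv i) = i) (hfix : ∀ i, inv i ≠ i) {i j : I}
    (hij : i ≠ j) (hij' : j ≠ inv i) (k l : I) :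
    (wt inv i k l = 1 ∧ wt inv j k l = -1) ↔ (k = i ∧ l = j) ∨ (k = inv j ∧ l = inv i) := by
  have h1 : ∀ a b, inv a = inv b ↔ a = b := fun a b =>
    ⟨fun h => by rw [← hinv a, h, hinv], fun h => by rw [h]⟩
  have h2 : ∀ a b, inv a = b ↔ a = inv b := fun a b => by rw [← h1, hinv]
  have h3 : ∀ a, a ≠ inv a := fun a => (hfix a).symm
  constructor
  · rintro ⟨h4, h5⟩
    unfold wt cor at h4 h5
    by_cases e1 : k = i
    · subst e1
      by_cases e2 : l = j
      · exact Or.inl ⟨rfl, e2⟩
      · exfalso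
        have e3 : k ≠ inv j := fun h => hij' (by rw [h, hinv])
        rw [if_neg hij, if_neg e3, if_neg e2] at h5
        split_ifs at h5 <;> omega
    · by_cases e2 : k = inv j
      · by_cases e3 : l = inv i
        · exact Or.inr ⟨e2, e3⟩
        · exfalso
          rw [if_neg e1, if_neg e3] at h4
          split_ifs at h4 <;> omega
      · exfalso
        rw [if_neg e1] at h4
        rw [if_neg e2] at h5
        have e3 : l = inv i := by
          by_contra e3
          rw [if_neg e3] at h4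
          split_ifs at h4 <;> omega
        subst e3
        have e4 : inv i ≠ j := fun h => hij' h.symm
        have e5 : inv i ≠ inv j := fun h => hij ((h1 _ _).mp h)
        rw [if_neg e4, if_neg e5] at h5
        split_ifs at h5 <;> omega
  · have e1 : j ≠ i := hij.symm
    have e2 : i ≠ inv j := fun h => hij' (by rw [h, hinv])
    have e3 : inv i ≠ inv j := fun h => hij ((h1 _ _).mp h)
    have e4 : inv i ≠ j := fun h => hij' h.symm
    have e5 : inv j ≠ i := fun h => e2 h.symm
    have e6 : inv j ≠ inv i := fun h => e3 h.symm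
    rintro (⟨rfl, rfl⟩ | ⟨rfl, rfl⟩)
    · unfold wt cor
      simp [e1, e2, hij, hij', h3]
    · unfold wt cor
      simp [e3, e4, e5, e6, hfix]

theorem wt_self {inv : I → I} (hfix : ∀ i, inv i ≠ i) {i : I} (k l : I) :
    wt inv i k l = 2 ↔ (k = i ∧ l = inv i) := by
  have h3 : ∀ a, a ≠ inv a := fun a => (hfix a).symm
  constructor
  · intro h
    unfold wt cor at h
    by_cases e1 : k = i
    · by_cases e2 : l = inv i
      · exact ⟨e1, e2⟩
      · exfalso
        rw [if_neg e2] at h
        split_ifs at h <;> omega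
    · exfalso
      rw [if_neg e1] at h
      split_ifs at h <;> omega
  · rintro ⟨rfl, rfl⟩
    unfold wt cor
    simp [hfix, h3]

/-- `g` is stable under the multiplication of the entries by the function `f` of the weights. -/
def Sc (g : Submodule 𝕂 (Matrix I I 𝕂)) (inv : I → I) (a : I) (f : ℤ → 𝕂) : Prop :=
  ∀ x ∈ g, (Matrix.of fun k l => f (wt inv a k l) * x k l) ∈ g

/-- A space of matrices stable under bracket with the coroots is stable under functions of the
weights. -/
theorem mem_step [Fintype I] {inv : I → I} {g : Submodule 𝕂 (Matrix I I 𝕂)}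
    (hbr : ∀ x ∈ g, ∀ y ∈ g, x * y - y * x ∈ g) {a : I} (ha : hh 𝕂 inv a ∈ g) (s : 𝕂)
    {f : ℤ → 𝕂} (hf : Sc g inv a f) : Sc g inv a fun w => f w * ((w : 𝕂) + s) := by
  intro x hx
  have h1 : (Matrix.of fun k l => (f (wt inv a k l) * ((wt inv a k l : 𝕂) + s)) * x k l) =
      (Matrix.of fun k l => f (wt inv a k l) * ((hh 𝕂 inv a * x - x * hh 𝕂 inv a) + s • x) k l) := by
    ext k l
    simp only [Matrix.of_apply, Matrix.add_apply, Matrix.smul_apply, smul_eq_mul, hh_bracket]
    ring
  change (Matrix.of fun k l => (f (wt inv a k l) * ((wt inv a k l : 𝕂) + s)) * x k l) ∈ g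
  rw [h1]
  exact hf _ (g.add_mem (hbr _ ha _ hx) (g.smul_mem _ hx))

theorem mem_const (g : Submodule 𝕂 (Matrix I I 𝕂)) (inv : I → I) (a : I) (s : 𝕂) :
    Sc g inv a fun _ => s := by
  intro x hx
  have h1 : (Matrix.of fun k l => (fun _ : ℤ => s) (wt inv a k l) * x k l) = s • x := by
    ext k l
    simp
  rw [h1]
  exact g.smul_mem _ hx

variable [CharZero 𝕂]

theorem mem_one [Fintype I] {inv : I → I} (hfix : ∀ i, inv i ≠ i)
    {g : Submodule 𝕂 (Matrix I I 𝕂)}
    (hbr : ∀ x ∈ g, ∀ y ∈ g, x * y - y * x ∈ g) {a : I} (ha : hh 𝕂 inv a ∈ g) {c : ℤ}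
    (hc : c = -1 ∨ c = 1 ∨ c = 2) :
    ∀ x ∈ g, (Matrix.of fun k l => if wt inv a k l = c then x k l else 0) ∈ g := by
  rcases hc with rfl | rfl | rfl
  · intro x hx
    have h1 := mem_step hbr ha (-2) (mem_step hbr ha 2 (mem_step hbr ha (-1)
      (mem_step hbr ha 0 (mem_const g inv a (-1 / 6 : 𝕂))))) x hx
    convert h1 using 1
    ext k l
    simp only [Matrix.of_apply]
    rcases wt_range a k l (hfix a) with h | h | h | h | h <;> rw [h] <;> norm_num
  · intro x hx
    have h1 := mem_step hbr ha (-2) (mem_step hbr ha 2 (mem_step hbr ha 1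
      (mem_step hbr ha 0 (mem_const g inv a (-1 / 6 : 𝕂))))) x hx
    convert h1 using 1
    ext k l
    simp only [Matrix.of_apply]
    rcases wt_range a k l (hfix a) with h | h | h | h | h <;> rw [h] <;> norm_num
  · intro x hx
    have h1 := mem_step hbr ha (-1) (mem_step hbr ha 2 (mem_step hbr ha 1
      (mem_step hbr ha 0 (mem_const g inv a (1 / 24 : 𝕂))))) x hx
    convert h1 using 1
    ext k l
    simp only [Matrix.of_apply]
    rcases wt_range a k l (hfix a) with h | h | h | h | h <;> rw [h] <;> norm_num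

/-- The component of a matrix in a root space. -/
def rc (inv : I → I) (i j : I) (x : Matrix I I 𝕂) : Matrix I I 𝕂 :=
  Matrix.of fun k l => if (k = i ∧ l = j) ∨ (k = inv j ∧ l = inv i) then x k l else 0

omit [CharZero 𝕂] in
theorem rc_zero {inv : I → I} {i j : I} (x : Matrix I I 𝕂) {k l : I}
    (h : ¬ ((k = i ∧ l = j) ∨ (k = inv j ∧ l = inv i))) : rc inv i j x k l = 0 := if_neg h

omit [CharZero 𝕂] in
theorem rc_pos {inv : I → I} {i j : I} (x : Matrix I I 𝕂) {k l : I}
    (h : (k = i ∧ l = j) ∨ (k = inv j ∧ l = inv i)) : rc inv i j x k l = x k l := if_pos h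

theorem rc_mem [Fintype I] {inv : I → I} (hinv : ∀ i, inv (inv i) = i) (hfix : ∀ i, inv i ≠ i)
    {g : Submodule 𝕂 (Matrix I I 𝕂)}
    (hbr : ∀ x ∈ g, ∀ y ∈ g, x * y - y * x ∈ g) (ha : ∀ a, hh 𝕂 inv a ∈ g) {i j : I}
    (hij : i ≠ j) {x : Matrix I I 𝕂} (hx : x ∈ g) : rc inv i j x ∈ g := by
  by_cases hij' : j = inv i
  · subst hij'
    have h1 := mem_one hfix hbr (ha i) (c := 2) (Or.inr (Or.inr rfl)) x hx
    convert h1 using 1
    ext k l
    simp only [rc, Matrix.of_apply, wt_self hfix, hinv, or_self]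
  · have h1 := mem_one hfix hbr (ha i) (c := 1) (Or.inr (Or.inl rfl)) _
      (mem_one hfix hbr (ha j) (c := -1) (Or.inl rfl) x hx)
    convert h1 using 1
    ext k l
    simp only [rc, Matrix.of_apply, ← wt_pair hinv hfix hij hij' k l, ite_and]

/-- Similitudes of multiplier `m`, for the form which pairs `i` with `inv i` with values `p`. -/
def Sim (inv : I → I) (p : I → 𝕂) (m : 𝕂) (x : Matrix I I 𝕂) : Prop :=
  ∀ i j, x i j * p i + x (inv j) (inv i) * p j = if i = j then m * p i else 0

theorem step_trans [Fintype I] {inv : I → I} (hinv : ∀ i, inv (inv i) = i)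
    (hfix : ∀ i, inv i ≠ i) {p : I → 𝕂} (hp : ∀ i, p i ≠ 0) (hskew : ∀ i, p (inv i) = - p i)
    {g : Submodule 𝕂 (Matrix I I 𝕂)}
    (hbr : ∀ x ∈ g, ∀ y ∈ g, x * y - y * x ∈ g) (hsim : ∀ x ∈ g, ∃ m, Sim inv p m x)
    (ha : ∀ a, hh 𝕂 inv a ∈ g) {i j l : I} (hij : i ≠ j) (hjl : j ≠ l) (hil : i ≠ l)
    {x y : Matrix I I 𝕂} (hx : x ∈ g) (hy : y ∈ g) (hxij : x i j ≠ 0) (hyjl : y j l ≠ 0) :
    ∃ z ∈ g, z i l ≠ 0 := by
  have hx' := rc_mem hinv hfix hbr ha hij hx
  have hy' := rc_mem hinv hfix hbr ha hjl hy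
  refine ⟨_, hbr _ hx' _ hy', ?_⟩
  have h1 : (rc inv i j x * rc inv j l y) i l = x i j * y j l := by
    rw [Matrix.mul_apply, sum_eq_single j]
    · simp [rc]
    · intro k _ hk
      have : ¬ ((i = i ∧ k = j) ∨ (i = inv j ∧ k = inv i)) := by
        rintro (⟨-, h⟩ | ⟨h, h'⟩)
        · exact hk h
        · exact hk (by rw [h', h, hinv])
      rw [rc_zero x this, zero_mul]
    · intro h
      exact absurd (mem_univ j) h
  by_cases hl : l = inv i
  · subst hl
    have h2 : (rc inv j (inv i) y * rc inv i j x) i (inv i) = y i (inv j) * x (inv j) (inv i) := by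
      rw [Matrix.mul_apply, sum_eq_single (inv j)]
      · simp [rc, hinv]
      · intro k _ hk
        have : ¬ ((i = j ∧ k = inv i) ∨ (i = inv (inv i) ∧ k = inv j)) := by
          rintro (⟨h, -⟩ | ⟨-, h'⟩)
          · exact hij h
          · exact hk h'
        rw [rc_zero y this, zero_mul]
      · intro h
        exact absurd (mem_univ _) h
    obtain ⟨m, hm⟩ := hsim x hx
    obtain ⟨m', hm'⟩ := hsim y hy
    have h3 := hm i j
    have h4 := hm' j (inv i)
    rw [if_neg hij] at h3
    rw [if_neg hjl, hinv, hskew] at h4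
    have h5 : y i (inv j) * x (inv j) (inv i) = - (x i j * y j (inv i)) := by
      have h6 : p i ≠ 0 := hp i
      have h7 : p j ≠ 0 := hp j
      have h8 : x (inv j) (inv i) = - (x i j * p i) / p j := by
        field_simp
        linear_combination h3
      have h9 : y i (inv j) = y j (inv i) * p j / p i := by
        field_simp
        linear_combination -h4
      rw [h8, h9]
      field_simp
    rw [Matrix.sub_apply, h1, h2, h5]
    have h10 : x i j * y j (inv i) ≠ 0 := mul_ne_zero hxij hyjl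
    intro h11
    apply h10
    have h12 : (2 : 𝕂) * (x i j * y j (inv i)) = 0 := by linear_combination h11
    exact (mul_eq_zero.mp h12).resolve_left two_ne_zero
  · have h2 : (rc inv j l y * rc inv i j x) i l = 0 := by
      rw [Matrix.mul_apply]
      refine sum_eq_zero fun k _ => ?_
      by_cases hk : (k = i ∧ l = j) ∨ (k = inv j ∧ l = inv i)
      · rcases hk with ⟨-, h⟩ | ⟨-, h⟩
        · exact absurd h.symm hjl
        · exact absurd h hl
      · rw [rc_zero x hk, mul_zero]
    rw [Matrix.sub_apply, h1, h2, sub_zero]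
    exact mul_ne_zero hxij hyjl

/-- The relation of being linked by `g`. -/
def Rel (g : Submodule 𝕂 (Matrix I I 𝕂)) (i j : I) : Prop := i = j ∨ ∃ x ∈ g, x i j ≠ 0

theorem single_mem [Fintype I] {inv : I → I} (hfix : ∀ i, inv i ≠ i)
    {g : Submodule 𝕂 (Matrix I I 𝕂)} (ha : ∀ a, hh 𝕂 inv a ∈ g) {W : Submodule 𝕂 (I → 𝕂)}
    (hW : ∀ x ∈ g, ∀ w ∈ W, x *ᵥ w ∈ W) {w : I → 𝕂} (hw : w ∈ W) (a : I) :
    Pi.single a (w a) ∈ W := by
  have h1 : (1 / 2 : 𝕂) • (hh 𝕂 inv a *ᵥ (hh 𝕂 inv a *ᵥ w + w)) ∈ W :=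
    W.smul_mem _ (hW _ (ha a) _ (W.add_mem (hW _ (ha a) _ hw) hw))
  convert h1 using 1
  ext k
  simp only [hh, Pi.smul_apply, Matrix.mulVec_diagonal, Pi.add_apply, smul_eq_mul]
  by_cases hk : k = a
  · subst hk
    simp only [Pi.single_eq_same, cor, if_true]
    rw [if_neg (hfix k).symm]
    push_cast
    ring
  · rw [Pi.single_eq_of_ne hk]
    unfold cor
    rw [if_neg hk]
    by_cases hk' : k = inv a
    · rw [if_pos hk']
      push_cast
      ring
    · rw [if_neg hk']
      push_cast
      ring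

/-- **The matrix version.** -/
theorem full_matrix [Fintype I] {inv : I → I} (hinv : ∀ i, inv (inv i) = i)
    (hfix : ∀ i, inv i ≠ i) {p : I → 𝕂} (hp : ∀ i, p i ≠ 0) (hskew : ∀ i, p (inv i) = - p i)
    {g : Submodule 𝕂 (Matrix I I 𝕂)}
    (hbr : ∀ x ∈ g, ∀ y ∈ g, x * y - y * x ∈ g) (hsim : ∀ x ∈ g, ∃ m, Sim inv p m x)
    (ha : ∀ a, hh 𝕂 inv a ∈ g)
    (hss : ∀ W : Submodule 𝕂 (I → 𝕂), (∀ x ∈ g, ∀ w ∈ W, x *ᵥ w ∈ W) →
      ∃ W' : Submodule 𝕂 (I → 𝕂), IsCompl W W' ∧ ∀ x ∈ g, ∀ w ∈ W', x *ᵥ w ∈ W')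
    {D : Matrix I I 𝕂} (hD : Sim inv p 0 D)
    (hc : ∀ c : Matrix I I 𝕂, (∀ x ∈ g, c * x = x * c) → c * D = D * c) : D ∈ g := by
  classical
  -- transitivity
  have htrans : ∀ i j l, Rel g i j → Rel g j l → Rel g i l := by
    rintro i j l (rfl | ⟨x, hx, hxij⟩) h2
    · exact h2
    · rcases h2 with rfl | ⟨y, hy, hyjl⟩
      · exact Or.inr ⟨x, hx, hxij⟩
      · by_cases hil : i = l
        · exact Or.inl hil
        · by_cases hij : i = j
          · subst hij
            exact Or.inr ⟨y, hy, hyjl⟩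
          · by_cases hjl : j = l
            · subst hjl
              exact Or.inr ⟨x, hx, hxij⟩
            · exact Or.inr (step_trans hinv hfix hp hskew hbr hsim ha hij hjl hil hx hy hxij hyjl)
  -- symmetry
  have hsymm : ∀ i j, Rel g i j → Rel g j i := by
    intro i j hij
    by_contra hji
    have hne : i ≠ j := by
      rintro rfl
      exact hji (Or.inl rfl)
    obtain ⟨x, hx, hxij⟩ := hij.resolve_left hne
    let W : Submodule 𝕂 (I → 𝕂) :=
      { carrier := {w | ∀ k, ¬ Rel g k i → w k = 0}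
        add_mem' := fun {u v} hu hv k hk => by
          rw [Pi.add_apply, hu k hk, hv k hk, add_zero]
        zero_mem' := fun k _ => rfl
        smul_mem' := fun c u hu k hk => by
          rw [Pi.smul_apply, hu k hk, smul_zero] }
    have hW : ∀ x ∈ g, ∀ w ∈ W, x *ᵥ w ∈ W := by
      intro y hy w hw k hk
      rw [Matrix.mulVec, dotProduct]
      refine sum_eq_zero fun l _ => ?_
      by_contra hne'
      have h1 : y k l ≠ 0 := left_ne_zero_of_mul hne'
      have h2 : w l ≠ 0 := right_ne_zero_of_mul hne'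
      have h3 : Rel g l i := by
        by_contra h4
        exact h2 (hw l h4)
      exact hk (htrans k l i (Or.inr ⟨y, hy, h1⟩) h3)
    obtain ⟨W', hcompl, hW'⟩ := hss W hW
    obtain ⟨u, hu, v, hv, huv⟩ := Submodule.mem_sup.mp
      (hcompl.sup_eq_top.symm ▸ Submodule.mem_top : (Pi.single j 1 : I → 𝕂) ∈ W ⊔ W')
    have h1 : v j = 1 := by
      have h2 := congrFun huv j
      rw [Pi.add_apply, hu j hji, zero_add, Pi.single_eq_same] at h2
      exact h2
    have h2 : (Pi.single j 1 : I → 𝕂) ∈ W' := by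
      have h3 := single_mem hfix ha hW' hv j
      rwa [h1] at h3
    have h3 : (Pi.single i (x i j) : I → 𝕂) ∈ W' := by
      have h4 := single_mem hfix ha hW' (hW' x hx _ h2) i
      have h5 : (x *ᵥ (Pi.single j 1 : I → 𝕂)) i = x i j := by
        rw [Matrix.mulVec_single_one, Matrix.col_apply]
      rwa [h5] at h4
    have h4 : (Pi.single i (x i j) : I → 𝕂) ∈ W := by
      intro k hk
      have hki : k ≠ i := by
        rintro rfl
        exact hk (Or.inl rfl)
      exact Pi.single_eq_of_ne hki _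
    have h5 : (Pi.single i (x i j) : I → 𝕂) = 0 :=
      (Submodule.disjoint_def.mp hcompl.disjoint) _ h4 h3
    have h6 := congrFun h5 i
    rw [Pi.single_eq_same] at h6
    exact hxij h6
  -- the entries of `D` are linked
  have hlink : ∀ k l, D k l ≠ 0 → Rel g k l := by
    intro k l hkl
    have h1 := hc (Matrix.diagonal fun a => if Rel g a l then 1 else 0) (by
      intro x hx
      ext a b
      rw [Matrix.diagonal_mul, Matrix.mul_diagonal]
      by_cases hab : x a b = 0
      · rw [hab, mul_zero, zero_mul]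
      · have h2 : Rel g a b := Or.inr ⟨x, hx, hab⟩
        have h3 : Rel g a l ↔ Rel g b l :=
          ⟨fun h => htrans b a l (hsymm a b h2) h, fun h => htrans a b l h2 h⟩
        simp only [h3]
        ring)
    have h2 := congrFun (congrFun h1 k) l
    have hll : Rel g l l := Or.inl rfl
    rw [Matrix.diagonal_mul, Matrix.mul_diagonal, if_pos hll] at h2
    by_contra h3
    rw [if_neg h3, zero_mul, mul_one] at h2
    exact hkl h2.symm
  -- the off-diagonal part
  let M : I → I → Matrix I I 𝕂 := fun i j =>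
    Matrix.single i j (D i j) + Matrix.single (inv j) (inv i) (D (inv j) (inv i))
  have hM : ∀ i j, i ≠ j → M i j ∈ g := by
    intro i j hij
    have hs := hD i j
    rw [if_neg hij] at hs
    by_cases h0 : D i j = 0
    · have h1 : D (inv j) (inv i) = 0 := by
        rw [h0, zero_mul, zero_add] at hs
        exact (mul_eq_zero.mp hs).resolve_right (hp j)
      have h2 : M i j = 0 := by
        change Matrix.single i j (D i j) + Matrix.single (inv j) (inv i) (D (inv j) (inv i)) = 0
        rw [h0, h1, Matrix.single_zero, Matrix.single_zero, add_zero]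
      rw [h2]
      exact g.zero_mem
    · obtain ⟨x, hx, hxij⟩ := (hlink i j h0).resolve_left hij
      have hx' := rc_mem hinv hfix hbr ha hij hx
      obtain ⟨m, hm⟩ := hsim x hx
      have hs' := hm i j
      rw [if_neg hij] at hs'
      by_cases hij' : j = inv i
      · have h2 : M i j = (2 * D i j / x i j) • rc inv i j x := by
          subst hij'
          ext k l
          simp only [M, rc, Matrix.add_apply, Matrix.smul_apply, Matrix.of_apply, hinv, smul_eq_mul,
            Matrix.single_apply, or_self]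
          by_cases hk : i = k ∧ inv i = l
          · obtain ⟨rfl, rfl⟩ := hk
            simp only [and_self, if_true]
            field_simp
            ring
          · have hk' : ¬ (k = i ∧ l = inv i) := fun h => hk ⟨h.1.symm, h.2.symm⟩
            rw [if_neg hk, if_neg hk']
            ring
        rw [h2]
        exact g.smul_mem _ hx'
      · have h2 : M i j = (D i j / x i j) • rc inv i j x := by
          ext k l
          have e1 : ∀ k' l', (i = k' ∧ j = l') ↔ (k' = i ∧ l' = j) := fun k' l' =>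
            ⟨fun h => ⟨h.1.symm, h.2.symm⟩, fun h => ⟨h.1.symm, h.2.symm⟩⟩
          have e2 : ∀ k' l', (inv j = k' ∧ inv i = l') ↔ (k' = inv j ∧ l' = inv i) := fun k' l' =>
            ⟨fun h => ⟨h.1.symm, h.2.symm⟩, fun h => ⟨h.1.symm, h.2.symm⟩⟩
          simp only [M, rc, Matrix.add_apply, Matrix.smul_apply, Matrix.of_apply, smul_eq_mul,
            Matrix.single_apply, e1, e2]
          by_cases hk : k = i ∧ l = j
          · obtain ⟨rfl, rfl⟩ := hk
            have h3 : ¬ (k = inv l ∧ l = inv k) := fun h => hij' h.2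
            simp only [and_self, if_true, h3, if_false, true_or, add_zero]
            field_simp
          · by_cases hk' : k = inv j ∧ l = inv i
            · obtain ⟨rfl, rfl⟩ := hk'
              rw [if_neg hk, if_pos ⟨rfl, rfl⟩, if_pos (Or.inr ⟨rfl, rfl⟩), zero_add]
              have h7 : p j ≠ 0 := hp j
              have h8 : x (inv j) (inv i) = - (x i j * p i) / p j := by
                field_simp
                linear_combination hs'
              have h9 : D (inv j) (inv i) = - (D i j * p i) / p j := by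
                field_simp
                linear_combination hs
              rw [h8, h9]
              field_simp
            · rw [if_neg hk, if_neg hk', if_neg (fun h => h.elim hk hk'), add_zero, mul_zero]
        rw [h2]
        exact g.smul_mem _ hx'
  -- the decomposition
  have hsum : (2 : 𝕂) • D = (∑ a, (D a a) • hh 𝕂 inv a) +
      ∑ i, ∑ j, if i = j then 0 else M i j := by
    have hdiag : ∀ a, D (inv a) (inv a) = - D a a := by
      intro a
      have h1 := hD a a
      rw [if_pos rfl, zero_mul, ← add_mul] at h1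
      have h2 := (mul_eq_zero.mp h1).resolve_right (hp a)
      linear_combination h2
    have hA : ∀ k l, (∑ a, (D a a) • hh 𝕂 inv a) k l = if k = l then 2 * D k l else 0 := by
      intro k l
      rw [Matrix.sum_apply]
      by_cases hkl : k = l
      · subst hkl
        rw [if_pos rfl]
        have h1 : ∀ a, ((D a a) • hh 𝕂 inv a) k k =
            (if k = a then D a a else 0) - (if inv k = a then D a a else 0) := by
          intro a
          have h2 : (k = inv a) ↔ (inv k = a) :=
            ⟨fun h => by rw [h, hinv], fun h => by rw [← h, hinv]⟩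
          simp only [hh, cor, Matrix.smul_apply, Matrix.diagonal_apply_eq, smul_eq_mul, h2]
          split_ifs <;> push_cast <;> ring
        rw [sum_congr rfl fun a _ => h1 a, sum_sub_distrib, sum_ite_eq, if_pos (mem_univ _),
          sum_ite_eq, if_pos (mem_univ _), hdiag]
        ring
      · rw [if_neg hkl]
        refine sum_eq_zero fun a _ => ?_
        rw [Matrix.smul_apply, hh, Matrix.diagonal_apply_ne _ hkl, smul_zero]
    have hB : ∀ k l, (∑ i, ∑ j, if i = j then 0 else M i j) k l =
        if k = l then 0 else 2 * D k l := by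
      intro k l
      rw [Matrix.sum_apply]
      have h1 : ∀ i, (∑ j, if i = j then 0 else M i j) k l =
          ∑ j, ((if i = k ∧ j = l then (if k = l then 0 else D k l) else 0) +
            (if inv j = k ∧ inv i = l then (if k = l then 0 else D k l) else 0)) := by
        intro i
        rw [Matrix.sum_apply]
        refine sum_congr rfl fun j _ => ?_
        by_cases hij : i = j
        · subst hij
          rw [if_pos rfl, Matrix.zero_apply]
          by_cases h3 : i = k ∧ i = l
          · obtain ⟨rfl, h4⟩ := h3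
            simp [h4]
          · rw [if_neg h3]
            by_cases h5 : inv i = k ∧ inv i = l
            · rw [if_pos h5, if_pos (h5.1.symm.trans h5.2), add_zero]
            · rw [if_neg h5, add_zero]
        · rw [if_neg hij]
          simp only [M, Matrix.add_apply, Matrix.single_apply]
          congr 1
          · by_cases h3 : i = k ∧ j = l
            · obtain ⟨rfl, rfl⟩ := h3
              rw [if_pos ⟨rfl, rfl⟩, if_pos ⟨rfl, rfl⟩, if_neg hij]
            · rw [if_neg h3, if_neg h3]
          · by_cases h3 : inv j = k ∧ inv i = l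
            · obtain ⟨rfl, rfl⟩ := h3
              have h4 : inv j ≠ inv i := fun h => hij (by rw [← hinv i, ← h, hinv])
              rw [if_pos ⟨rfl, rfl⟩, if_pos ⟨rfl, rfl⟩, if_neg h4]
            · rw [if_neg h3, if_neg h3]
      rw [sum_congr rfl fun i _ => h1 i]
      simp only [sum_add_distrib]
      have h2 : ∀ c : 𝕂, (∑ i, ∑ j, if i = k ∧ j = l then c else 0) = c := by
        intro c
        simp only [ite_and]
        simp
      have h3 : ∀ c : 𝕂, (∑ i, ∑ j, if inv j = k ∧ inv i = l then c else 0) = c := by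
        intro c
        have h4 : ∀ i j, (inv j = k ∧ inv i = l) ↔ (i = inv l ∧ j = inv k) := fun i j =>
          ⟨fun h => ⟨by rw [← h.2, hinv], by rw [← h.1, hinv]⟩,
            fun h => ⟨by rw [h.2, hinv], by rw [h.1, hinv]⟩⟩
        simp only [h4, ite_and]
        simp
      rw [h2, h3]
      split_ifs <;> ring
    ext k l
    rw [Matrix.add_apply, hA, hB, Matrix.smul_apply, smul_eq_mul]
    split_ifs <;> ring
  have h2 : (2 : 𝕂) • D ∈ g := by
    rw [hsum]
    refine g.add_mem (g.sum_mem fun a _ => g.smul_mem _ (ha a)) (g.sum_mem fun i _ =>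
      g.sum_mem fun j _ => ?_)
    split_ifs with h
    · exact g.zero_mem
    · exact hM i j h
  have h3 := g.smul_mem (1 / 2 : 𝕂) h2
  rwa [smul_smul, one_div, inv_mul_cancel₀ (two_ne_zero), one_smul] at h3

end Mat

section Operators

open Module

variable {𝕂 V I : Type*} [Field 𝕂] [CharZero 𝕂] [AddCommGroup V] [Module 𝕂 V] [Fintype I]
  [DecidableEq I]

omit [CharZero 𝕂] in
theorem psi_left {inv : I → I} (hinv : ∀ i, inv (inv i) = i) (b : Basis I 𝕂 V)
    (ψ : V →ₗ[𝕂] V →ₗ[𝕂] 𝕂) (hψ : ∀ i j, ψ (b i) (b j) ≠ 0 ↔ j = inv i)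
    (x : Module.End 𝕂 V) (i j : I) :
    ψ (x (b j)) (b (inv i)) =
      LinearMap.toMatrixAlgEquiv b x i j * ψ (b i) (b (inv i)) := by
  rw [LinearMap.toMatrixAlgEquiv_apply]
  conv_lhs => rw [← b.sum_repr (x (b j))]
  rw [map_sum, LinearMap.sum_apply, sum_eq_single i]
  · rw [map_smul, LinearMap.smul_apply, smul_eq_mul]
  · intro k _ hk
    rw [map_smul, LinearMap.smul_apply, smul_eq_mul]
    have h1 : ψ (b k) (b (inv i)) = 0 := by
      by_contra h
      have h2 := (hψ k (inv i)).mp h
      exact hk (by rw [← hinv k, ← h2, hinv])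
    rw [h1, mul_zero]
  · intro h
    exact absurd (mem_univ i) h

omit [CharZero 𝕂] in
theorem sim_of {inv : I → I} (hinv : ∀ i, inv (inv i) = i) (b : Basis I 𝕂 V)
    (ψ : V →ₗ[𝕂] V →ₗ[𝕂] 𝕂) (halt : ∀ u v, ψ u v = - ψ v u)
    (hψ : ∀ i j, ψ (b i) (b j) ≠ 0 ↔ j = inv i) {x : Module.End 𝕂 V} {m : 𝕂}
    (hx : ∀ u v, ψ (x u) v + ψ u (x v) = m * ψ u v) :
    Sim inv (fun i => ψ (b i) (b (inv i))) m (LinearMap.toMatrixAlgEquiv b x) := by
  intro i j
  have h1 := hx (b j) (b (inv i))
  rw [psi_left hinv b ψ hψ, halt (b j) (x (b (inv i)))] at h1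
  have h2 := psi_left hinv b ψ hψ x (inv j) (inv i)
  rw [hinv] at h2
  rw [h2, halt (b (inv j)) (b j)] at h1
  have h3 : m * ψ (b j) (b (inv i)) = if i = j then m * ψ (b i) (b (inv i)) else 0 := by
    by_cases hij : i = j
    · subst hij
      rw [if_pos rfl]
    · rw [if_neg hij]
      have h4 : ψ (b j) (b (inv i)) = 0 := by
        by_contra h
        have h5 := (hψ j (inv i)).mp h
        exact hij (by rw [← hinv i, h5, hinv])
      rw [h4, mul_zero]
  rw [← h3, ← h1]
  ring

/-- **Semisimple Lie algebras of similitudes containing a full torus**, multiplier zero. -/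
theorem full_sp (b : Basis I 𝕂 V) (inv : I → I)
    (hinv : ∀ i, inv (inv i) = i) (hfix : ∀ i, inv i ≠ i)
    (ψ : V →ₗ[𝕂] V →ₗ[𝕂] 𝕂) (halt : ∀ u v, ψ u v = - ψ v u)
    (hψ : ∀ i j, ψ (b i) (b j) ≠ 0 ↔ j = inv i)
    (g : Submodule 𝕂 (Module.End 𝕂 V)) (hbr : ∀ x ∈ g, ∀ y ∈ g, x * y - y * x ∈ g)
    (hsim : ∀ x ∈ g, ∃ m : 𝕂, ∀ u v, ψ (x u) v + ψ u (x v) = m * ψ u v)
    (htor : ∀ a, ∀ h : Module.End 𝕂 V,
      (∀ i, h (b i) = ((if i = a then 1 else 0) - (if i = inv a then 1 else 0) : 𝕂) • b i) → h ∈ g)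
    (hss : ∀ W : Submodule 𝕂 V, (∀ x ∈ g, ∀ w ∈ W, x w ∈ W) →
      ∃ W' : Submodule 𝕂 V, IsCompl W W' ∧ ∀ x ∈ g, ∀ w ∈ W', x w ∈ W')
    {D : Module.End 𝕂 V} (hD : ∀ u v, ψ (D u) v + ψ u (D v) = 0)
    (hc : ∀ c : Module.End 𝕂 V, (∀ x ∈ g, c * x = x * c) → c * D = D * c) : D ∈ g := by
  classical
  let T := LinearMap.toMatrixAlgEquiv (R := 𝕂) b
  let g' : Submodule 𝕂 (Matrix I I 𝕂) := g.map T.toLinearMap
  have hg' : ∀ x : Module.End 𝕂 V, T x ∈ g' ↔ x ∈ g := by
    intro x
    constructor
    · rintro ⟨y, hy, hyx⟩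
      have h1 : T y = T x := hyx
      rwa [← T.injective h1]
    · intro hx
      exact ⟨x, hx, rfl⟩
  have key := full_matrix (𝕂 := 𝕂) (inv := inv) hinv hfix (p := fun i => ψ (b i) (b (inv i)))
    (fun i => (hψ i (inv i)).mpr rfl) (fun i => by rw [hinv]; exact halt _ _) (g := g')
    ?_ ?_ ?_ ?_ (D := T D) ?_ ?_
  · exact (hg' D).mp key
  · rintro _ ⟨x, hx, rfl⟩ _ ⟨y, hy, rfl⟩
    have h1 : T.toLinearMap x * T.toLinearMap y - T.toLinearMap y * T.toLinearMap x =
        T (x * y - y * x) := by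
      rw [map_sub, map_mul, map_mul]
      rfl
    rw [h1, hg']
    exact hbr x hx y hy
  · rintro _ ⟨x, hx, rfl⟩
    obtain ⟨m, hm⟩ := hsim x hx
    exact ⟨m, sim_of hinv b ψ halt hψ hm⟩
  · intro a
    have h1 : hh 𝕂 inv a = T (T.symm (hh 𝕂 inv a)) := (T.apply_symm_apply _).symm
    rw [h1, hg']
    apply htor a
    intro i
    have h2 : T.symm (hh 𝕂 inv a) = Matrix.toLinAlgEquiv b (hh 𝕂 inv a) := rfl
    rw [h2, Matrix.toLinAlgEquiv_self, sum_eq_single i]
    · simp [hh, cor]
    · intro k _ hk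
      rw [hh, Matrix.diagonal_apply_ne _ hk, zero_smul]
    · intro h
      exact absurd (mem_univ i) h
  · intro W hW
    let e := b.equivFun
    obtain ⟨U, hU, hU'⟩ := hss (W.comap e.toLinearMap) (by
      intro x hx w hw
      have h1 : e w ∈ W := hw
      have h2 := hW (T x) ((hg' x).mpr hx) _ h1
      have h3 : T x *ᵥ e w = e (x w) := LinearMap.toMatrix_mulVec_repr b b x w
      rw [h3] at h2
      exact h2)
    refine ⟨U.map e.toLinearMap, ?_, ?_⟩
    · have h1 := (Submodule.orderIsoMapComap e).isCompl_iff.mp hU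
      have h2 : (Submodule.orderIsoMapComap e) (W.comap e.toLinearMap) = W := by
        change (W.comap e.toLinearMap).map e.toLinearMap = W
        exact Submodule.map_comap_eq_of_surjective e.surjective W
      rw [h2] at h1
      exact h1
    · rintro x hx _ ⟨u, hu, rfl⟩
      have h1 : x = T (T.symm x) := (T.apply_symm_apply _).symm
      have h2 : T.symm x ∈ g := by
        rw [← hg', ← h1]
        exact hx
      refine ⟨T.symm x u, hU' _ h2 u hu, ?_⟩
      have h3 : T (T.symm x) *ᵥ e u = e (T.symm x u) :=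
        LinearMap.toMatrix_mulVec_repr b b (T.symm x) u
      rw [← h1] at h3
      exact h3.symm
  · refine sim_of hinv b ψ halt hψ (m := 0) fun u v => ?_
    rw [hD, zero_mul]
  · intro c hcc
    have h1 : c = T (T.symm c) := (T.apply_symm_apply _).symm
    have h2 := hc (T.symm c) (by
      intro x hx
      apply T.injective
      rw [map_mul, map_mul, ← h1]
      exact hcc _ ((hg' x).mpr hx))
    have h3 := congrArg T h2
    rw [map_mul, map_mul, ← h1] at h3
    exact h3

/-- **Semisimple Lie algebras of similitudes containing a full torus.** -/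
theorem full_torus (b : Basis I 𝕂 V) (inv : I → I)
    (hinv : ∀ i, inv (inv i) = i) (hfix : ∀ i, inv i ≠ i)
    (ψ : V →ₗ[𝕂] V →ₗ[𝕂] 𝕂) (halt : ∀ u v, ψ u v = - ψ v u)
    (hψ : ∀ i j, ψ (b i) (b j) ≠ 0 ↔ j = inv i)
    (g : Submodule 𝕂 (Module.End 𝕂 V)) (hbr : ∀ x ∈ g, ∀ y ∈ g, x * y - y * x ∈ g)
    (hsim : ∀ x ∈ g, ∃ m : 𝕂, ∀ u v, ψ (x u) v + ψ u (x v) = m * ψ u v)
    (htor : ∀ (d : I → 𝕂) (m : 𝕂) (h : Module.End 𝕂 V), (∀ i, d i + d (inv i) = m) →
      (∀ i, h (b i) = d i • b i) → h ∈ g)
    (hss : ∀ W : Submodule 𝕂 V, (∀ x ∈ g, ∀ w ∈ W, x w ∈ W) →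
      ∃ W' : Submodule 𝕂 V, IsCompl W W' ∧ ∀ x ∈ g, ∀ w ∈ W', x w ∈ W')
    {D : Module.End 𝕂 V} (hD : ∃ m : 𝕂, ∀ u v, ψ (D u) v + ψ u (D v) = m * ψ u v)
    (hc : ∀ c : Module.End 𝕂 V, (∀ x ∈ g, c * x = x * c) → c * D = D * c) : D ∈ g := by
  obtain ⟨m, hm⟩ := hD
  have hone : (1 : Module.End 𝕂 V) ∈ g :=
    htor (fun _ => 1) 2 1 (fun i => by norm_num) fun i => by simp
  have h1 : D - (m / 2) • (1 : Module.End 𝕂 V) ∈ g := by
    refine full_sp b inv hinv hfix ψ halt hψ g hbr hsim (fun a h hh' => ?_) hss (fun u v => ?_)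
      fun c hcc => ?_
    · refine htor (fun i => (if i = a then 1 else 0) - (if i = inv a then 1 else 0)) 0 h
        (fun i => ?_) hh'
      have h2 : (inv i = a) ↔ (i = inv a) :=
        ⟨fun h => by rw [← h, hinv], fun h => by rw [h, hinv]⟩
      have h3 : (inv i = inv a) ↔ (i = a) :=
        ⟨fun h => by rw [← hinv i, h, hinv], fun h => by rw [h]⟩
      simp only [h2, h3]
      ring
    · have h2 := hm u v
      simp only [LinearMap.sub_apply, LinearMap.smul_apply, Module.End.one_apply, map_sub,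
        map_smul, smul_eq_mul]
      linear_combination h2
    · rw [mul_sub, sub_mul, hc c hcc, mul_smul_comm, smul_mul_assoc, mul_one, one_mul]
  have h2 := g.add_mem h1 (g.smul_mem (m / 2) hone)
  rwa [sub_add_cancel] at h2

end Operators

end Pool.Agent.OneFrob
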