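import Mathlib

/-!
# The Lie algebra of the Frobenius torus when there are only trivial relations

`F` is an endomorphism of a finite dimensional space, thought of as the Frobenius endomorphism of
an abelian variety. `frobTorus F` is the Lie algebra of the Zariski closure of the group generated
by `F` when `F` is diagonalisable and invertible.
-/

namespace Pool.Agent.OneFrob

open Finset Module

variable {𝕂 V : Type*} [Field 𝕂] [AddCommGroup V] [Module 𝕂 V]

/-- The Lie algebra of the Frobenius torus: all `D` which are scalars `d μ` on the eigenspaces of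
`F`, such that `∑ n_μ d_μ = 0` for every multiplicative relation `∏ μ ^ n_μ = 1` between the
eigenvalues of `F`. -/
def frobTorus (F : Module.End 𝕂 V) : Set (Module.End 𝕂 V) :=
  {D | ∃ d : 𝕂 → 𝕂, (∀ μ, ∀ v ∈ F.eigenspace μ, D v = d μ • v) ∧
    ∀ s : Finset 𝕂, (∀ μ ∈ s, F.HasEigenvalue μ) → ∀ n : 𝕂 → ℤ, ∏ μ ∈ s, μ ^ n μ = 1 →
      ∑ μ ∈ s, (n μ : 𝕂) * d μ = 0}

variable {P : 𝕂 → Prop} {q : ℕ}

/-- If there are only trivial relations, all relations are satisfied by the similitudes. -/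
theorem sum_eq_zero_of_trivial [CharZero 𝕂] (hq : q ≠ 0) (h0 : ∀ μ, P μ → μ ≠ 0)
    (hcl : ∀ μ, P μ → P ((q : 𝕂) / μ))
    (hwt : ∀ S : Multiset 𝕂, (∀ μ ∈ S, P μ) → ∀ k : ℕ, S.prod = (q : 𝕂) ^ k → S.card = 2 * k)
    (hpair : ∀ S : Multiset 𝕂, (∀ μ ∈ S, P μ) → ∀ k : ℕ, S.card = 2 * k →
      S.prod = (q : 𝕂) ^ k → ∃ m : Multiset 𝕂, S = m + m.map fun μ => (q : 𝕂) / μ)
    {d : 𝕂 → 𝕂} {c : 𝕂} (hd : ∀ μ, P μ → d μ + d ((q : 𝕂) / μ) = c) (s : Finset 𝕂)
    (hs : ∀ μ ∈ s, P μ) (n : 𝕂 → ℤ) (hn : ∏ μ ∈ s, μ ^ n μ = 1) :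
    ∑ μ ∈ s, (n μ : 𝕂) * d μ = 0 := by
  classical
  have hq' : (q : 𝕂) ≠ 0 := by exact_mod_cast hq
  have hinv : ∀ μ : 𝕂, μ ≠ 0 → (q : 𝕂) / ((q : 𝕂) / μ) = μ := fun μ hμ => by field_simp
  let E : Finset 𝕂 := s ∪ s.image fun μ => (q : 𝕂) / μ
  have hEP : ∀ μ ∈ E, P μ := by
    intro μ hμ
    rcases mem_union.mp hμ with h | h
    · exact hs μ h
    · obtain ⟨ν, hν, rfl⟩ := mem_image.mp h
      exact hcl ν (hs ν hν)
  have hEcl : ∀ μ ∈ E, (q : 𝕂) / μ ∈ E := by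
    intro μ hμ
    rcases mem_union.mp hμ with h | h
    · exact mem_union_right _ (mem_image.mpr ⟨μ, h, rfl⟩)
    · obtain ⟨ν, hν, rfl⟩ := mem_image.mp h
      rw [hinv ν (h0 ν (hs ν hν))]
      exact mem_union_left _ hν
  let n' : 𝕂 → ℤ := fun μ => if μ ∈ s then n μ else 0
  have hsub : s ⊆ E := subset_union_left
  have hn' : ∏ μ ∈ E, μ ^ n' μ = 1 := by
    rw [← hn]
    refine (prod_subset hsub fun μ _ hμ => ?_).symm.trans (prod_congr rfl fun μ hμ => ?_)
    · change μ ^ (if μ ∈ s then n μ else 0) = 1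
      rw [if_neg hμ, zpow_zero]
    · change μ ^ (if μ ∈ s then n μ else 0) = _
      rw [if_pos hμ]
  have hgoal : ∑ μ ∈ s, (n μ : 𝕂) * d μ = ∑ μ ∈ E, (n' μ : 𝕂) * d μ := by
    refine (sum_congr rfl fun μ hμ => ?_).trans (sum_subset hsub fun μ _ hμ => ?_)
    · change _ = ((if μ ∈ s then n μ else 0 : ℤ) : 𝕂) * d μ
      rw [if_pos hμ]
    · change ((if μ ∈ s then n μ else 0 : ℤ) : 𝕂) * d μ = 0
      rw [if_neg hμ, Int.cast_zero, zero_mul]
  rw [hgoal]
  -- the multiset of the relation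
  let S : Multiset 𝕂 := (∑ μ ∈ E, (n' μ).toNat • ({μ} : Multiset 𝕂)) +
    ∑ μ ∈ E, (- n' μ).toNat • ({(q : 𝕂) / μ} : Multiset 𝕂)
  have hSP : ∀ μ ∈ S, P μ := by
    intro μ hμ
    rcases Multiset.mem_add.mp hμ with h | h
    · obtain ⟨ν, hν, h1⟩ := Multiset.mem_sum.mp h
      have h2 := Multiset.mem_of_mem_nsmul h1
      rw [Multiset.mem_singleton] at h2
      rw [h2]
      exact hEP ν hν
    · obtain ⟨ν, hν, h1⟩ := Multiset.mem_sum.mp h
      have h2 := Multiset.mem_of_mem_nsmul h1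
      rw [Multiset.mem_singleton] at h2
      rw [h2]
      exact hcl ν (hEP ν hν)
  have hSprod : S.prod = (q : 𝕂) ^ (∑ μ ∈ E, (- n' μ).toNat) := by
    rw [Multiset.prod_add, Multiset.prod_sum, Multiset.prod_sum, ← prod_mul_distrib,
      ← prod_pow_eq_pow_sum, ← one_mul (∏ μ ∈ E, (q : 𝕂) ^ (- n' μ).toNat), ← hn',
      ← prod_mul_distrib]
    refine prod_congr rfl fun μ hμ => ?_
    have hμ0 : μ ≠ 0 := h0 μ (hEP μ hμ)
    rw [Multiset.prod_nsmul, Multiset.prod_nsmul, Multiset.prod_singleton,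
      Multiset.prod_singleton]
    rcases le_total 0 (n' μ) with h | h
    · have h1 : (- n' μ).toNat = 0 := Int.toNat_of_nonpos (by omega)
      rw [h1, pow_zero, pow_zero, mul_one, mul_one, ← zpow_natCast, Int.toNat_of_nonneg h]
    · have h1 : (n' μ).toNat = 0 := Int.toNat_of_nonpos h
      have h2 : ((- n' μ).toNat : ℤ) = - n' μ := Int.toNat_of_nonneg (by omega)
      have h3 : μ ^ n' μ = (μ ^ (- n' μ).toNat)⁻¹ := by
        rw [← zpow_natCast, h2, zpow_neg, inv_inv]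
      rw [h1, pow_zero, one_mul, h3, div_pow]
      field_simp
  have hScard : S.card = (∑ μ ∈ E, (n' μ).toNat) + ∑ μ ∈ E, (- n' μ).toNat := by
    rw [Multiset.card_add, Multiset.card_sum, Multiset.card_sum]
    simp
  have hcard := hwt S hSP _ hSprod
  obtain ⟨m, hm⟩ := hpair S hSP _ hcard hSprod
  have hmP : ∀ μ ∈ m, P μ := fun μ hμ => hSP μ (by rw [hm]; exact Multiset.mem_add.mpr (Or.inl hμ))
  -- counting
  have hcount : ∀ ν ∈ E, S.count ν = (n' ν).toNat + (- n' ((q : 𝕂) / ν)).toNat := by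
    intro ν hν
    have hν0 : ν ≠ 0 := h0 ν (hEP ν hν)
    rw [Multiset.count_add, Multiset.count_sum', Multiset.count_sum']
    congr 1
    · rw [sum_eq_single ν]
      · rw [Multiset.count_nsmul, Multiset.count_singleton_self, mul_one]
      · intro μ _ hμ
        rw [Multiset.count_nsmul, Multiset.count_singleton, if_neg (Ne.symm hμ), mul_zero]
      · intro h
        exact absurd hν h
    · rw [sum_eq_single ((q : 𝕂) / ν)]
      · rw [Multiset.count_nsmul, hinv ν hν0, Multiset.count_singleton_self, mul_one]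
      · intro μ hμE hμ
        have h1 : ν ≠ (q : 𝕂) / μ := by
          rintro rfl
          exact hμ (hinv μ (h0 μ (hEP μ hμE))).symm
        rw [Multiset.count_nsmul, Multiset.count_singleton, if_neg h1, mul_zero]
      · intro h
        exact absurd (hEcl ν hν) h
  have hmapcount : ∀ ν, ν ≠ 0 → (m.map fun μ => (q : 𝕂) / μ).count ν = m.count ((q : 𝕂) / ν) := by
    intro ν hν
    rw [Multiset.count_map, Multiset.count, Multiset.countP_eq_card_filter]
    congr 1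
    refine Multiset.filter_congr fun a ha => ?_
    have ha0 : a ≠ 0 := h0 a (hmP a ha)
    constructor
    · rintro rfl
      exact hinv a ha0
    · rintro rfl
      exact (hinv ν hν).symm
  have hsym : ∀ ν ∈ E, n' ν = n' ((q : 𝕂) / ν) := by
    intro ν hν
    have hν0 : ν ≠ 0 := h0 ν (hEP ν hν)
    have hν1 : (q : 𝕂) / ν ≠ 0 := div_ne_zero hq' hν0
    have h1 := hcount ν hν
    have h2 := hcount _ (hEcl ν hν)
    rw [hinv ν hν0] at h2
    rw [hm, Multiset.count_add, hmapcount _ hν0] at h1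
    rw [hm, Multiset.count_add, hmapcount _ hν1, hinv ν hν0] at h2
    omega
  have hsum0 : ∑ μ ∈ E, n' μ = 0 := by
    have h1 : ∀ μ, n' μ = ((n' μ).toNat : ℤ) - ((- n' μ).toNat : ℤ) := fun μ => by omega
    rw [sum_congr rfl fun μ _ => h1 μ, sum_sub_distrib]
    rw [hScard] at hcard
    push_cast [← Nat.cast_sum]
    omega
  have h1 : ∑ μ ∈ E, (n' μ : 𝕂) * d μ = ∑ μ ∈ E, (n' μ : 𝕂) * d ((q : 𝕂) / μ) := by
    refine sum_nbij' (fun μ => (q : 𝕂) / μ) (fun μ => (q : 𝕂) / μ) hEcl hEcl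
      (fun μ hμ => hinv μ (h0 μ (hEP μ hμ))) (fun μ hμ => hinv μ (h0 μ (hEP μ hμ)))
      fun μ hμ => ?_
    rw [← hsym μ hμ, hinv μ (h0 μ (hEP μ hμ))]
  have h2 : 2 * ∑ μ ∈ E, (n' μ : 𝕂) * d μ = 0 := by
    calc 2 * ∑ μ ∈ E, (n' μ : 𝕂) * d μ =
        ∑ μ ∈ E, (n' μ : 𝕂) * d μ + ∑ μ ∈ E, (n' μ : 𝕂) * d ((q : 𝕂) / μ) := by
          rw [← h1]; ring
      _ = ∑ μ ∈ E, (n' μ : 𝕂) * c := by
          rw [← sum_add_distrib]
          exact sum_congr rfl fun μ hμ => by rw [← mul_add, hd μ (hEP μ hμ)]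
      _ = ((∑ μ ∈ E, n' μ : ℤ) : 𝕂) * c := by
          rw [← sum_mul]
          push_cast
          rfl
      _ = 0 := by rw [hsum0, Int.cast_zero, zero_mul]
  exact (mul_eq_zero.mp h2).resolve_left two_ne_zero

end Pool.Agent.OneFrob
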