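import Pool.Agent.FrobTate.Discr

/-!
# One Frobenius: the arithmetic
-/

namespace Pool.Agent.OneFrob

open Finset Module Pool.Agent.CMParity Pool.Agent.FrobTate

variable {ι : Type} [Fintype ι] {K : ι → Type} [∀ i, Field (K i)] [∀ i, NumberField (K i)]
  {π : ∀ i, K i}

/-- The trivial relations are the only ones: independent discriminants. -/
theorem discr_pairing {p a : ℕ} [Fact p.Prime] (ha : 0 < a)
    (hweil : ∀ i, ∀ χ : K i →+* ℂ, ‖χ (π i)‖ ^ 2 = (p ^ a : ℕ))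
    (hgen : ∀ i, Algebra.adjoin ℚ {π i} = ⊤)
    (hslope : ∀ i, ∀ ψ : K i →+* PadicAlgCl p, ∃ b c : ℕ, Odd b ∧
      ‖ψ (π i)‖ ^ b = ‖((p ^ a : ℕ) : PadicAlgCl p)‖ ^ c)
    (hdeg : ∀ i, ∃ n : ℕ, finrank ℚ (K i) = 2 ^ n)
    (hdisc : ∀ S : Finset ι, S.Nonempty → ¬ IsSquare (∏ i ∈ S, NumberField.discr (K i)))
    {𝕂 : Type*} [Field 𝕂] [CharZero 𝕂] (S : Multiset 𝕂)
    (hS : ∀ μ ∈ S, ∃ i, ∃ χ : K i →+* 𝕂, χ (π i) = μ) {k : ℕ} (hcard : S.card = 2 * k)
    (hprod : S.prod = ((p ^ a : ℕ) : 𝕂) ^ k) :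
    ∃ m : Multiset 𝕂, S = m + m.map fun μ => ((p ^ a : ℕ) : 𝕂) / μ := by
  classical
  have hp : p.Prime := Fact.out
  have hq : p ^ a ≠ 0 := pow_ne_zero _ hp.ne_zero
  obtain ⟨ip⟩ := exists_embedding (PadicAlgCl p)
  obtain ⟨N, w, hwodd, hw⟩ := exists_weight (π := π) ip hslope
  refine exists_pairing (n := 1) hq hweil (emb_sq_ne ha hslope) ?_ one_ne_zero S hS hcard
    (by rw [pow_one, one_mul]; exact hprod)
  intro j n hn S hcard hprod
  refine count_eq hq hweil hgen ip (norm_q_pos p a) (norm_q_lt p ha) w hw ?_ hn S hcard hprod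
  intro hwinv c hc hrel
  have hcomm := eperm_comm (K := K) hq hweil hgen
  refine odd_weight_criterion (egal K) (fun x => x.1) ?_ htr_of_conj (hpow_of_deg hdeg) einv
    einv_einv hcomm w hwodd hwinv ?_ c hc hrel
  · rintro _ ⟨σ, rfl⟩ x
    rfl
  · intro S hS
    by_contra hcon
    push Not at hcon
    let T : Finset ι := univ.filter fun i => i ∈ S
    have hT : T.Nonempty := by
      obtain ⟨x, hx⟩ := hS
      exact ⟨x.1, mem_filter.mpr ⟨mem_univ _, hx⟩⟩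
    let Φ : ∀ i, Finset (K i →+* ℂ) := fun i => univ.filter fun χ => 0 < w ⟨i, χ⟩
    have hΦm : ∀ i χ, χ ∈ Φ i ↔ 0 < w ⟨i, χ⟩ := fun i χ => by
      rw [mem_filter]
      exact and_iff_right (mem_univ χ)
    have hwne : ∀ x, w x ≠ 0 := by
      intro x h0
      have := hwodd x
      rw [h0] at this
      exact absurd this (by decide)
    have hneg : ∀ x, ¬ 0 < w x ↔ w x < 0 := by
      intro x
      have := hwne x
      omega
    have hcjinv : ∀ i (χ : K i →+* ℂ), (starRingEnd ℂ).comp ((starRingEnd ℂ).comp χ) = χ := by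
      intro i χ
      ext a
      simp
    have hfix : ∀ σ : ℂ →+* ℂ, σ (∏ i ∈ T, dsqrt (K i)) = ∏ i ∈ T, dsqrt (K i) := by
      intro σ
      let G : ∀ i, Finset (K i →+* ℂ) := fun i => (Φ i).filter fun χ => σ.comp χ ∉ Φ i
      have h1 : ∀ i ∈ T, σ (dsqrt (K i)) = (-1) ^ (G i).card * dsqrt (K i) := by
        intro i _
        refine map_dsqrt' (K i) (inv := fun χ => (starRingEnd ℂ).comp χ) (hcjinv i)
          (Φ := Φ i) ?_ σ ?_ ?_
        · intro χ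
          rw [hΦm, hΦm]
          have h2 := hwinv ⟨i, χ⟩
          have h3 := hwne ⟨i, χ⟩
          change 0 < w (einv ⟨i, χ⟩) ↔ _
          omega
        · intro χ
          have h2 := hcomm (eperm σ) ⟨σ, rfl⟩ ⟨i, χ⟩
          have h3 : (⟨i, σ.comp ((starRingEnd ℂ).comp χ)⟩ : Emb K) =
            ⟨i, (starRingEnd ℂ).comp (σ.comp χ)⟩ := h2
          exact emb_mk_inj i h3
        · intro χ
          rw [mem_filter]
      have h2 := hcon (eperm σ) ⟨σ, rfl⟩ (T.sigma G) (by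
        rintro ⟨i, χ⟩
        rw [mem_sigma, mem_filter, mem_filter, hΦm, hΦm, hneg]
        constructor
        · rintro ⟨⟨-, h3⟩, h4, h5⟩
          exact ⟨h4, h3, h5⟩
        · rintro ⟨h4, h3, h5⟩
          exact ⟨⟨mem_univ _, h3⟩, h4, h5⟩)
      rw [Nat.not_odd_iff_even, card_sigma] at h2
      rw [_root_.map_prod, prod_congr rfl h1, prod_mul_distrib,
        prod_pow_eq_pow_sum, h2.neg_one_pow, one_mul]
    have hsq : (∏ i ∈ T, dsqrt (K i)) ^ 2 = ((∏ i ∈ T, NumberField.discr (K i) : ℤ) : ℂ) := by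
      rw [← prod_pow]
      push_cast
      exact prod_congr rfl fun i _ => dsqrt_sq (K i)
    have hint : IsIntegral ℚ (∏ i ∈ T, dsqrt (K i)) := by
      refine IsIntegral.of_pow (n := 2) (by norm_num) ?_
      rw [hsq]
      exact isIntegral_algebraMap (R := ℚ) (A := ℂ)
        (x := ((∏ i ∈ T, NumberField.discr (K i) : ℤ) : ℚ))
    obtain ⟨r, hr⟩ := rational_of_fixed hint hfix
    apply hdisc T hT
    have h1 : ((∏ i ∈ T, NumberField.discr (K i) : ℤ) : ℚ) = r * r := by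
      have h2 : (((∏ i ∈ T, NumberField.discr (K i) : ℤ) : ℚ) : ℂ) = ((r * r : ℚ) : ℂ) := by
        rw [Rat.cast_intCast, ← hsq, ← hr]
        push_cast
        ring
      exact_mod_cast h2
    exact Rat.isSquare_intCast_iff.mp ⟨r, h1⟩


omit [Fintype ι] in
theorem label_ne_zero {q : ℕ} (hq : q ≠ 0) (hweil : ∀ i, ∀ χ : K i →+* ℂ, ‖χ (π i)‖ ^ 2 = q)
    {𝕂 : Type*} [Field 𝕂] {μ : 𝕂}
    (hμ : ∃ i, ∃ χ : K i →+* 𝕂, χ (π i) = μ) : μ ≠ 0 := by
  obtain ⟨i, χ, rfl⟩ := hμ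
  intro h
  have h1 : π i = 0 := χ.injective (by rw [h, map_zero])
  have hcard : 0 < Fintype.card (K i →+* ℂ) := by
    rw [NumberField.Embeddings.card]
    exact finrank_pos
  obtain ⟨σ⟩ := Fintype.card_pos_iff.mp hcard
  have h2 := hweil i σ
  rw [h1, map_zero, norm_zero] at h2
  apply hq
  have h3 : (q : ℝ) = 0 := by
    rw [← h2]
    norm_num
  exact_mod_cast h3

/-- The weight of a product of Weil numbers. -/
theorem card_of_prod {q : ℕ} (hq : 1 < q) (hweil : ∀ i, ∀ χ : K i →+* ℂ, ‖χ (π i)‖ ^ 2 = q)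
    {𝕂 : Type*} [Field 𝕂] [CharZero 𝕂] (S : Multiset 𝕂)
    (hS : ∀ μ ∈ S, ∃ i, ∃ χ : K i →+* 𝕂, χ (π i) = μ) (k : ℕ) (hprod : S.prod = (q : 𝕂) ^ k) :
    S.card = 2 * k := by
  obtain ⟨J, hJ⟩ := exists_label K π 𝕂
  have h1 : ∀ T : Multiset 𝕂, (∀ μ ∈ T, μ ∈ S) → ∃ h : T.prod ∈ algebraicClosure ℚ 𝕂,
      ‖J ⟨T.prod, h⟩‖ ^ 2 = (q : ℝ) ^ T.card := by
    intro T
    induction T using Multiset.induction_on with
    | empty =>
      intro _
      refine ⟨by simp, ?_⟩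
      have h2 : J ⟨(0 : Multiset 𝕂).prod, by simp⟩ = 1 := by
        rw [← map_one J]
        rfl
      rw [h2]
      simp
    | cons μ T ih =>
      intro hT
      obtain ⟨h2, h3⟩ := ih fun ν hν => hT ν (Multiset.mem_cons_of_mem hν)
      obtain ⟨h4, x, hx⟩ := hJ μ (hS μ (hT μ (Multiset.mem_cons_self _ _)))
      have h5 : (μ ::ₘ T).prod ∈ algebraicClosure ℚ 𝕂 := by
        rw [Multiset.prod_cons]
        exact mul_mem h4 h2
      refine ⟨h5, ?_⟩
      have h6 : (⟨(μ ::ₘ T).prod, h5⟩ : algebraicClosure ℚ 𝕂) = ⟨μ, h4⟩ * ⟨T.prod, h2⟩ :=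
        Subtype.ext (Multiset.prod_cons _ _)
      rw [h6, map_mul, norm_mul, mul_pow, h3, ← hx, hweil, Multiset.card_cons, pow_succ]
      ring
  obtain ⟨h2, h3⟩ := h1 S fun _ h => h
  have h4 : (⟨S.prod, h2⟩ : algebraicClosure ℚ 𝕂) = ((q ^ k : ℕ) : algebraicClosure ℚ 𝕂) := by
    apply Subtype.ext
    change S.prod = _
    rw [hprod]
    push_cast
    rfl
  rw [h4, map_natCast] at h3
  have h5 : ((q : ℝ) ^ (2 * k)) = (q : ℝ) ^ S.card := by
    rw [← h3]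
    rw [Complex.norm_natCast]
    push_cast
    ring
  have h6 : (q : ℕ) ^ (2 * k) = q ^ S.card := by exact_mod_cast h5
  exact (Nat.pow_right_injective hq h6).symm

theorem label_sq_ne {p a : ℕ} [Fact p.Prime] (ha : 0 < a)
    (hslope : ∀ i, ∀ ψ : K i →+* PadicAlgCl p, ∃ b c : ℕ, Odd b ∧
      ‖ψ (π i)‖ ^ b = ‖((p ^ a : ℕ) : PadicAlgCl p)‖ ^ c)
    {𝕂 : Type*} [Field 𝕂] [CharZero 𝕂] {μ : 𝕂}
    (hμ : ∃ i, ∃ χ : K i →+* 𝕂, χ (π i) = μ) : μ * μ ≠ ((p ^ a : ℕ) : 𝕂) := by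
  obtain ⟨i, χ, rfl⟩ := hμ
  intro h
  have h1 : π i * π i = ((p ^ a : ℕ) : K i) := χ.injective (by rw [map_mul, h, map_natCast])
  have hcard : 0 < Fintype.card (K i →+* ℂ) := by
    rw [NumberField.Embeddings.card]
    exact finrank_pos
  obtain ⟨σ⟩ := Fintype.card_pos_iff.mp hcard
  refine emb_sq_ne ha hslope ⟨i, σ⟩ ?_
  change σ (π i) ^ 2 = _
  rw [pow_two, ← map_mul, h1, map_natCast]

end Pool.Agent.OneFrob
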