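import Pool.Agent.OneFrob.FullTorus
import Pool.Agent.OneFrob.Torus
import Pool.Agent.OneFrob.Arith

/-!
# One Frobenius
-/

namespace Pool.Agent.OneFrob

open Finset Module

variable {𝕂 V : Type*} [Field 𝕂] [CharZero 𝕂] [AddCommGroup V] [Module 𝕂 V]
  [FiniteDimensional 𝕂 V]

omit [CharZero 𝕂] in
theorem eigen_basis {F : Module.End 𝕂 V} (hF : ⨆ μ, F.eigenspace μ = ⊤)
    (h1 : ∀ μ, finrank 𝕂 (F.eigenspace μ) ≤ 1) :
    ∃ b : Basis F.Eigenvalues 𝕂 V, ∀ μ : F.Eigenvalues, b μ ∈ F.eigenspace μ.1 := by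
  have h2 : ∀ μ : F.Eigenvalues, ∃ v, F.HasEigenvector μ.1 v := fun μ =>
    Module.End.HasEigenvalue.exists_hasEigenvector μ.2
  choose v hv using h2
  have hli : LinearIndependent 𝕂 v :=
    Module.End.eigenvectors_linearIndependent' F (fun μ : F.Eigenvalues => μ.1)
      Subtype.val_injective v hv
  refine ⟨Basis.mk hli ?_, fun μ => ?_⟩
  · rw [← hF]
    refine iSup_le fun μ => ?_
    by_cases hμ : F.HasEigenvalue μ
    · intro w hw
      have h3 : finrank 𝕂 (F.eigenspace μ) = 1 := by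
        refine le_antisymm (h1 μ) ?_
        rw [Nat.one_le_iff_ne_zero]
        intro h4
        exact hμ (Submodule.finrank_eq_zero.mp h4)
      have h5 : (⟨v ⟨μ, hμ⟩, (hv ⟨μ, hμ⟩).1⟩ : F.eigenspace μ) ≠ 0 := by
        intro h
        exact (hv ⟨μ, hμ⟩).2 (congrArg Subtype.val h)
      obtain ⟨c, hc⟩ := (finrank_eq_one_iff_of_nonzero' _ h5).mp h3 ⟨w, hw⟩
      have h6 : c • v ⟨μ, hμ⟩ = w := congrArg Subtype.val hc
      rw [← h6]
      exact Submodule.smul_mem _ _ (Submodule.subset_span ⟨⟨μ, hμ⟩, rfl⟩)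
    · have h3 : F.eigenspace μ = ⊥ := by
        by_contra h
        exact hμ h
      rw [h3]
      exact bot_le
  · rw [Basis.mk_apply]
    exact (hv μ).1

/-- A Lie algebra of similitudes which is semisimple and contains the Frobenius torus is the full
similitude Lie algebra of the double commutant, if there are only trivial relations. -/
theorem full_of_trivial {q : ℕ} (hq : q ≠ 0) {F : Module.End 𝕂 V}
    (hF : ⨆ μ, F.eigenspace μ = ⊤) (h1 : ∀ μ, finrank 𝕂 (F.eigenspace μ) ≤ 1)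
    {P : 𝕂 → Prop} (hP : ∀ μ, F.HasEigenvalue μ → P μ)
    (h0 : ∀ μ, P μ → μ ≠ 0)
    (hsq : ∀ μ, P μ → μ * μ ≠ (q : 𝕂))
    (hwt : ∀ S : Multiset 𝕂, (∀ μ ∈ S, P μ) → ∀ k : ℕ, S.prod = (q : 𝕂) ^ k → S.card = 2 * k)
    (hpair : ∀ S : Multiset 𝕂, (∀ μ ∈ S, P μ) → ∀ k : ℕ, S.card = 2 * k →
      S.prod = (q : 𝕂) ^ k → ∃ m : Multiset 𝕂, S = m + m.map fun μ => (q : 𝕂) / μ)
    {ψ : V →ₗ[𝕂] V →ₗ[𝕂] 𝕂} (halt : ∀ u v, ψ u v = - ψ v u)
    (hnd : ∀ u, (∀ v, ψ u v = 0) → u = 0) (hFψ : ∀ u v, ψ (F u) (F v) = (q : 𝕂) * ψ u v)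
    {g : Submodule 𝕂 (Module.End 𝕂 V)} (hbr : ∀ x ∈ g, ∀ y ∈ g, x * y - y * x ∈ g)
    (hsim : ∀ x ∈ g, ∃ m : 𝕂, ∀ u v, ψ (x u) v + ψ u (x v) = m * ψ u v)
    (htor : frobTorus F ⊆ g)
    (hss : ∀ W : Submodule 𝕂 V, (∀ x ∈ g, ∀ w ∈ W, x w ∈ W) →
      ∃ W' : Submodule 𝕂 V, IsCompl W W' ∧ ∀ x ∈ g, ∀ w ∈ W', x w ∈ W')
    {D : Module.End 𝕂 V} (hD : ∃ m : 𝕂, ∀ u v, ψ (D u) v + ψ u (D v) = m * ψ u v)
    (hc : ∀ c : Module.End 𝕂 V, (∀ x ∈ g, c * x = x * c) → c * D = D * c) : D ∈ g := by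
  classical
  have hq' : (q : 𝕂) ≠ 0 := by exact_mod_cast hq
  obtain ⟨b, hb⟩ := eigen_basis hF h1
  have hb0 : ∀ μ, b μ ≠ 0 := b.ne_zero
  -- the pairing between eigenvectors
  have hpq : ∀ μ ν : F.Eigenvalues, ψ (b μ) (b ν) ≠ 0 → μ.1 * ν.1 = q := by
    intro μ ν h
    have h2 := hFψ (b μ) (b ν)
    rw [Module.End.mem_eigenspace_iff.mp (hb μ), Module.End.mem_eigenspace_iff.mp (hb ν)] at h2
    simp only [map_smul, LinearMap.smul_apply, smul_eq_mul] at h2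
    have h3 : (μ.1 * ν.1 - q) * ψ (b μ) (b ν) = 0 := by linear_combination h2
    exact sub_eq_zero.mp ((mul_eq_zero.mp h3).resolve_right h)
  have hex : ∀ μ : F.Eigenvalues, ∃ ν : F.Eigenvalues, ψ (b μ) (b ν) ≠ 0 := by
    intro μ
    by_contra h
    push Not at h
    apply hb0 μ
    apply hnd
    intro v
    have h2 : ψ (b μ) = 0 := b.ext fun ν => by rw [h ν, LinearMap.zero_apply]
    rw [h2, LinearMap.zero_apply]
  choose inv hinv' using hex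
  have hinvval : ∀ μ, (inv μ).1 = (q : 𝕂) / μ.1 := by
    intro μ
    have h2 := hpq μ (inv μ) (hinv' μ)
    rw [eq_div_iff (h0 _ (hP _ μ.2)), mul_comm]
    exact h2
  have hinv : ∀ μ, inv (inv μ) = μ := by
    intro μ
    apply Subtype.ext
    rw [hinvval, hinvval]
    have := h0 _ (hP _ μ.2)
    field_simp
  have hfix : ∀ μ, inv μ ≠ μ := by
    intro μ h
    have h2 := hpq μ (inv μ) (hinv' μ)
    rw [h] at h2
    exact hsq _ (hP _ μ.2) h2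
  have hψ : ∀ μ ν, ψ (b μ) (b ν) ≠ 0 ↔ ν = inv μ := by
    intro μ ν
    constructor
    · intro h
      apply Subtype.ext
      rw [hinvval, eq_div_iff (h0 _ (hP _ μ.2)), mul_comm]
      exact hpq μ ν h
    · rintro rfl
      exact hinv' μ
  refine full_torus b inv hinv hfix ψ halt hψ g hbr hsim ?_ hss hD hc
  intro d m h hd hh
  apply htor
  let d' : 𝕂 → 𝕂 := fun μ => if hμ : F.HasEigenvalue μ then d ⟨μ, hμ⟩ else 0
  have hd' : ∀ μ : F.Eigenvalues, d' μ.1 = d μ := fun μ => dif_pos μ.2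
  refine ⟨d', ?_, ?_⟩
  · intro μ v hv
    by_cases hv0 : v = 0
    · rw [hv0, map_zero, smul_zero]
    · have hμ : F.HasEigenvalue μ := Module.End.hasEigenvalue_of_hasEigenvector ⟨hv, hv0⟩
      have h2 : ∃ c : 𝕂, c • b ⟨μ, hμ⟩ = v := by
        have h3 : (⟨b ⟨μ, hμ⟩, hb ⟨μ, hμ⟩⟩ : F.eigenspace μ) ≠ 0 := fun h =>
          hb0 ⟨μ, hμ⟩ (congrArg Subtype.val h)
        have h4 : finrank 𝕂 (F.eigenspace μ) = 1 := by
          refine le_antisymm (h1 μ) ?_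
          rw [Nat.one_le_iff_ne_zero]
          intro h4
          exact hμ (Submodule.finrank_eq_zero.mp h4)
        obtain ⟨c, hc⟩ := (finrank_eq_one_iff_of_nonzero' _ h3).mp h4 ⟨v, hv⟩
        exact ⟨c, congrArg Subtype.val hc⟩
      obtain ⟨c, rfl⟩ := h2
      rw [map_smul, hh, smul_comm]
      congr 1
      exact (hd' ⟨μ, hμ⟩).symm
  · intro s hs n hn
    have hset : ∀ μ, F.HasEigenvalue μ → F.HasEigenvalue ((q : 𝕂) / μ) := by
      intro μ hμ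
      have h2 := (inv ⟨μ, hμ⟩).2
      rw [hinvval ⟨μ, hμ⟩] at h2
      exact h2
    refine sum_eq_zero_of_trivial (P := F.HasEigenvalue) hq (fun μ hμ => h0 μ (hP μ hμ)) hset
      (fun S hS => hwt S fun μ hμ => hP μ (hS μ hμ))
      (fun S hS => hpair S fun μ hμ => hP μ (hS μ hμ)) (c := m) ?_ s hs n hn
    intro μ hμ
    have h2 := hd ⟨μ, hμ⟩
    have h3 : d' ((q : 𝕂) / μ) = d (inv ⟨μ, hμ⟩) := by
      rw [← hd' (inv ⟨μ, hμ⟩), hinvval]
    have h4 : d' μ = d ⟨μ, hμ⟩ := hd' ⟨μ, hμ⟩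
    rw [h3, h4]
    exact h2

end Pool.Agent.OneFrob
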