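import Pool.Agent.OneFrob.Main
import Pool.Agent.TateTwo.Galois

/-!
# One Frobenius: conditions on the Newton polygon
-/

namespace Pool.Agent.OneFrob

open Finset Module Polynomial Pool.Agent.TateTwo

/-- A symmetric multiset is a sum of pairs. -/
theorem exists_pairs {𝕂 : Type*} [Field 𝕂] [DecidableEq 𝕂] (q : 𝕂) (hq : q ≠ 0) (n : ℕ) :
    ∀ S : Multiset 𝕂, S.card ≤ n → (∀ z ∈ S, z ≠ 0 ∧ q / z ≠ z) →
      (∀ z, S.count (q / z) = S.count z) → ∃ m : Multiset 𝕂, S = m + m.map fun μ => q / μ := by
  induction n with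
  | zero =>
    intro S hS _ _
    refine ⟨0, ?_⟩
    rw [Multiset.map_zero, add_zero]
    exact Multiset.card_eq_zero.1 (Nat.le_zero.1 hS)
  | succ n ih =>
    intro S hS h0 hc
    rcases Multiset.empty_or_exists_mem S with rfl | ⟨z, hz⟩
    · exact ⟨0, by simp⟩
    · obtain ⟨hz0, hzz⟩ := h0 z hz
      have hz' : q / z ∈ S := by
        rw [← Multiset.count_pos, hc, Multiset.count_pos]
        exact hz
      have hz'' : q / z ∈ S.erase z := (Multiset.mem_erase_of_ne hzz).2 hz'
      obtain ⟨m, hm⟩ := ih ((S.erase z).erase (q / z)) (by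
        have h1 := Multiset.card_erase_of_mem hz
        have h2 := Multiset.card_erase_of_mem hz''
        rw [Nat.pred_eq_sub_one] at h1 h2
        omega) (fun w hw => h0 w (Multiset.mem_of_mem_erase (Multiset.mem_of_mem_erase hw)))
        (by
          intro w
          have hinv : ∀ w, w ≠ 0 → q / (q / w) = w := fun w hw => by field_simp
          by_cases hw0 : w = 0
          · rw [hw0, div_zero]
          by_cases h1 : w = z
          · subst h1
            rw [Multiset.count_erase_self, Multiset.count_erase_of_ne hzz,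
              Multiset.count_erase_of_ne (Ne.symm hzz), Multiset.count_erase_self, hc]
          · by_cases h2 : w = q / z
            · subst h2
              rw [hinv z hz0, Multiset.count_erase_of_ne (Ne.symm hzz),
                Multiset.count_erase_self, Multiset.count_erase_self,
                Multiset.count_erase_of_ne hzz, hc]
            · have h3 : q / w ≠ z := by
                intro h
                apply h2
                rw [← h, hinv w hw0]
              have h4 : q / w ≠ q / z := by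
                intro h
                apply h1
                rw [← hinv w hw0, h, hinv z hz0]
              rw [Multiset.count_erase_of_ne h4, Multiset.count_erase_of_ne h3,
                Multiset.count_erase_of_ne h2, Multiset.count_erase_of_ne h1, hc])
      refine ⟨z ::ₘ m, ?_⟩
      rw [Multiset.map_cons, Multiset.add_cons, Multiset.cons_add, ← hm,
        Multiset.cons_swap, Multiset.cons_erase hz'', Multiset.cons_erase hz]

private theorem root_aeval (P : ℚ[X]) [Fact (Irreducible P)] :
    aeval (AdjoinRoot.root P) P = 0 := by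
  rw [aeval_def, show algebraMap ℚ (AdjoinRoot P) = AdjoinRoot.of P from Subsingleton.elim _ _]
  exact AdjoinRoot.eval₂_root P

variable {p : ℕ} [hp : Fact p.Prime]

/-- The weight of a product of roots. -/
theorem newton_card {a : ℕ} (ha : 0 < a) {P : ℚ[X]} (hP : Irreducible P)
    (hC : ∀ z : ℂ, aeval z P = 0 → ‖z‖ ^ 2 = ((p ^ a : ℕ) : ℝ))
    {𝕂 : Type*} [Field 𝕂] [CharZero 𝕂] (S : Multiset 𝕂) (hS : ∀ μ ∈ S, aeval μ P = 0) (k : ℕ)
    (hprod : S.prod = ((p ^ a : ℕ) : 𝕂) ^ k) : S.card = 2 * k := by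
  have : Fact (Irreducible P) := ⟨hP⟩
  have hfin : FiniteDimensional ℚ (AdjoinRoot P) := (AdjoinRoot.powerBasis hP.ne_zero).finite
  have hnf : NumberField (AdjoinRoot P) := { to_charZero := inferInstance, to_finiteDimensional := hfin }
  refine card_of_prod (K := fun _ : Unit => AdjoinRoot P) (π := fun _ => AdjoinRoot.root P)
    (Nat.one_lt_pow ha.ne' hp.1.one_lt) ?_ S ?_ k hprod
  · intro _ χ
    apply hC
    have h1 : aeval (AdjoinRoot.root P) P = 0 := root_aeval P
    have h2 := aeval_algHom_apply χ.toRatAlgHom (AdjoinRoot.root P) P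
    rw [h1, map_zero] at h2
    exact h2
  · intro μ hμ
    refine ⟨(), AdjoinRoot.lift (algebraMap ℚ 𝕂) μ ?_, ?_⟩
    · rw [← aeval_def]
      exact hS μ hμ
    · exact AdjoinRoot.lift_root _

/-- Only trivial relations. -/
theorem newton_pairing {a : ℕ} (ha : 0 < a) (P : ℚ[X]) (hP : Irreducible P)
    (hdeg : 2 < P.natDegree) (hC : ∀ z : ℂ, aeval z P = 0 → ‖z‖ ^ 2 = ((p ^ a : ℕ) : ℝ))
    (s : ℝ) (hs : s ≠ 0) (r : PadicAlgCl p → ℤ)
    (hr : ∀ z ∈ P.rootSet (PadicAlgCl p), ‖z‖ ^ 2 = ((p ^ a : ℕ) : ℝ) ^ (-(1 + s * r z)))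
    (g : ℚ[X]) (t : PadicAlgCl p) {l k : ℕ} (hl : l.Prime) (B : Set (PadicAlgCl p))
    (hB : B = {z | z ∈ P.rootSet (PadicAlgCl p) ∧ aeval z g = t})
    (hBc : ∀ z ∈ B, ((p ^ a : ℕ) : PadicAlgCl p) / z ∈ B) (hBk : B.ncard = 2 * l ^ k)
    (hcond : CondOne (p ^ a) l P r B ∨ CondTwo l P r B)
    {𝕂 : Type*} [Field 𝕂] [CharZero 𝕂] (S : Multiset 𝕂) (hS : ∀ μ ∈ S, aeval μ P = 0) {i : ℕ}
    (hcard : S.card = 2 * i) (hprod : S.prod = ((p ^ a : ℕ) : 𝕂) ^ i) :
    ∃ m : Multiset 𝕂, S = m + m.map fun μ => ((p ^ a : ℕ) : 𝕂) / μ := by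
  classical
  have hq : p ^ a ≠ 0 := pow_ne_zero _ hp.1.ne_zero
  have hq' : ((p ^ a : ℕ) : 𝕂) ≠ 0 := by exact_mod_cast hq
  refine exists_pairs _ hq' _ S le_rfl ?_ ?_
  · intro z hz
    have h1 := hS z hz
    exact ⟨root_ne_zero hP hdeg h1, div_ne_self hP hdeg h1 (root_ne_zero hP hdeg h1)⟩
  · intro z
    by_cases hz : aeval z P = 0
    · let j : 𝕂 →+* AlgebraicClosure 𝕂 := algebraMap 𝕂 (AlgebraicClosure 𝕂)
      have hj : ∀ w : 𝕂, aeval w P = 0 → j w ∈ P.rootSet (AlgebraicClosure 𝕂) := by
        intro w hw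
        rw [mem_rootSet]
        refine ⟨hP.ne_zero, ?_⟩
        have h2 := aeval_algHom_apply j.toRatAlgHom w P
        rw [hw, map_zero] at h2
        exact h2
      have h1 := relations ha P hP hdeg hC s hs r hr g t hl B hB hBc hBk hcond
        (K := AlgebraicClosure 𝕂) (S.map j) (by
          intro w hw
          obtain ⟨v, hv, rfl⟩ := Multiset.mem_map.1 hw
          exact hj v (hS v hv)) 1 i one_pos (by rw [Multiset.card_map, hcard]) (by
          rw [pow_one, mul_one, ← map_multiset_prod, hprod, map_pow, map_natCast]) (j z) (hj z hz)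
      have h2 : ((p ^ a : ℕ) : AlgebraicClosure 𝕂) / j z = j (((p ^ a : ℕ) : 𝕂) / z) := by
        rw [map_div₀, map_natCast]
      rw [h2, Multiset.count_map_eq_count' _ _ j.injective,
        Multiset.count_map_eq_count' _ _ j.injective] at h1
      exact h1
    · have h1 : z ∉ S := fun h => hz (hS z h)
      have h2 : ((p ^ a : ℕ) : 𝕂) / z ∉ S := by
        intro h
        apply hz
        have h3 := hS _ h
        have hz0 : z ≠ 0 := by
          rintro rfl
          rw [div_zero] at h3
          exact root_ne_zero hP hdeg h3 rfl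
        have : Fact (Irreducible P) := ⟨hP⟩
        have hfin : FiniteDimensional ℚ (AdjoinRoot P) :=
          (AdjoinRoot.powerBasis hP.ne_zero).finite
        have h4 := TateTwo.div_mem (L := AdjoinRoot P) (q := p ^ a) hC hq
          (x := AdjoinRoot.root P) (root_aeval P)
        let j : AdjoinRoot P →+* 𝕂 := AdjoinRoot.lift (algebraMap ℚ 𝕂) (((p ^ a : ℕ) : 𝕂) / z)
          (by rw [← aeval_def]; exact h3)
        have h5 := aeval_algHom_apply j.toRatAlgHom
          (((p ^ a : ℕ) : AdjoinRoot P) / AdjoinRoot.root P) P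
        rw [h4, map_zero] at h5
        have h6 : j.toRatAlgHom (((p ^ a : ℕ) : AdjoinRoot P) / AdjoinRoot.root P) = z := by
          change j (((p ^ a : ℕ) : AdjoinRoot P) / AdjoinRoot.root P) = z
          rw [map_div₀, map_natCast, AdjoinRoot.lift_root, div_div_cancel₀ hq']
        rw [h6] at h5
        exact h5
      rw [Multiset.count_eq_zero_of_notMem h1, Multiset.count_eq_zero_of_notMem h2]

end Pool.Agent.OneFrob
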