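import Pool.Agent.OneFrob.Main
import Pool.Agent.CMTower.Tate

/-!
# One Frobenius: towers of fields with independent relative discriminants
-/

namespace Pool.Agent.OneFrob

open Finset Module Pool.Agent.CMParity Pool.Agent.FrobTate Pool.Agent.IndepCM Pool.Agent.CMTower

variable {τ : Type} [Fintype τ] {ι : τ → Type} [∀ t, Fintype (ι t)] {L : τ → Type}
  [∀ t, Field (L t)]
  [∀ t, NumberField (L t)] {K : ∀ t, ι t → Type} [∀ t i, Field (K t i)]
  [∀ t i, NumberField (K t i)] [∀ t i, Algebra (L t) (K t i)] {π : ∀ t i, K t i}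

/-- The trivial relations are the only ones: separated towers, independent discriminants. -/
theorem tower_pairing {p a : ℕ} [Fact p.Prime] (ha : 0 < a)
    (hgen : ∀ t i, Algebra.adjoin ℚ {π t i} = ⊤)
    (hweil : ∀ t i, ∀ χ : K t i →+* ℂ, ‖χ (π t i)‖ ^ 2 = (p ^ a : ℕ))
    (hsep : Separated (L := L) K)
    (hdeg : ∀ t i, ∃ n : ℕ, finrank (L t) (K t i) = 2 ^ n)
    {κ : ∀ t, ι t → Type} [∀ t i, Fintype (κ t i)] [∀ t i, DecidableEq (κ t i)]
    (b : ∀ t i, Basis (κ t i) (L t) (K t i))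
    (hdisc : ∀ t, ∀ S : Finset (ι t), S.Nonempty →
      ¬ IsSquare (∏ i ∈ S, Algebra.discr (L t) (b t i)))
    (hslope : ∀ t, ∃ (ρ : L t →+* PadicAlgCl p) (s : ℝ), s ≠ 0 ∧ GoodPlace L π p a t ρ s)
    {𝕂 : Type*} [Field 𝕂] [CharZero 𝕂] (S : Multiset 𝕂)
    (hS : ∀ μ ∈ S, ∃ t i, ∃ χ : K t i →+* 𝕂, χ (π t i) = μ) {k : ℕ} (hcard : S.card = 2 * k)
    (hprod : S.prod = ((p ^ a : ℕ) : 𝕂) ^ k) :
    ∃ m : Multiset 𝕂, S = m + m.map fun μ => ((p ^ a : ℕ) : 𝕂) / μ := by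
  classical
  have hp : p.Prime := Fact.out
  have hq : p ^ a ≠ 0 := pow_ne_zero _ hp.ne_zero
  obtain ⟨ip⟩ := exists_embedding (PadicAlgCl p)
  have hgen' : ∀ x : CMTower.Idx ι, Algebra.adjoin ℚ {π x.1 x.2} = ⊤ := fun x => hgen x.1 x.2
  have hweil' : ∀ x : CMTower.Idx ι, ∀ χ : K x.1 x.2 →+* ℂ, ‖χ (π x.1 x.2)‖ ^ 2 = (p ^ a : ℕ) :=
    fun x => hweil x.1 x.2
  have hπ0 : ∀ x : CMTower.Idx ι, π x.1 x.2 ≠ 0 := by
    intro x h0
    obtain ⟨χ⟩ : Nonempty (K x.1 x.2 →+* ℂ) := inferInstance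
    have h1 := hweil x.1 x.2 χ
    rw [h0, _root_.map_zero, norm_zero] at h1
    have h2 : ((p ^ a : ℕ) : ℝ) ≠ 0 := by exact_mod_cast hq
    apply h2
    rw [← h1]
    norm_num
  obtain ⟨N, w, hN, hw⟩ := exists_int_weight (K := Fld K) (π := fun x => π x.1 x.2)
    (p := p) ha.ne' ip hπ0
  refine exists_pairing (K := Fld K) (π := fun x => π x.1 x.2) (n := 1) hq hweil'
    (sq_ne ha hslope) ?_ one_ne_zero S (fun μ hμ => ?_) hcard (by rw [pow_one, one_mul]; exact hprod)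
  swap
  · obtain ⟨t, i, χ, hχ⟩ := hS μ hμ
    exact ⟨⟨t, i⟩, χ, hχ⟩
  intro j n hn S hcard hprod
  refine count_eq (K := Fld K) (π := fun x => π x.1 x.2) hq hweil' hgen' ip (norm_q_pos p a)
    (norm_q_lt p ha) w hw ?_ hn S hcard hprod
  intro hwinv c hc hrel
  have hcomm := eperm_comm (K := Fld K) (π := fun x => π x.1 x.2) hq hweil' hgen'
  refine tower_criterion (egal (Fld K)) (fun x => x.1) (block L) ?_ htr_of_conj einv einv_einv
    hcomm ?_ (block_inv hq hgen hweil hsep) (block_sep hq hgen hweil hsep) (block_pow hdeg) w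
    hwinv ?_ c hc hrel
  · rintro _ ⟨σ, rfl⟩ x
    rfl
  · rintro _ ⟨σ, rfl⟩ x y hxy
    rw [eperm_apply, eperm_apply]
    refine (block_act (L := L) (K := K) σ x).trans ?_
    refine Eq.trans ?_ (block_act (L := L) (K := K) σ y).symm
    rw [hxy]
  · rintro ⟨⟨t, i⟩, χ⟩
    obtain ⟨ρ, s, hs0, hs⟩ := hslope t
    obtain ⟨ρ₁, hρ₁⟩ := (comp_lft_bijective (K := L t) ip).2 ρ
    obtain ⟨σ, hσ⟩ := exists_comp_eq (χ.comp (algebraMap (L t) (K t i))) ρ₁
    have hblk : block L (eperm σ (⟨⟨t, i⟩, χ⟩ : Emb (Fld K))) = ⟨t, ρ₁⟩ := by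
      rw [eperm_apply]
      exact (block_mem_iff t i ρ₁ _).mpr (by rw [← hσ]; rfl)
    have hN0 : (N : ℝ) * s ≠ 0 := mul_ne_zero (by exact_mod_cast hN) hs0
    have hex : ∀ y : Emb (Fld K), ∃ r : ℤ, block L y = ⟨t, ρ₁⟩ →
        Odd r ∧ (w y : ℝ) = (N * s) * r := by
      intro y
      by_cases hy : block L y = ⟨t, ρ₁⟩
      · obtain ⟨r, hr⟩ := weight_of_good ha hs ip hw hρ₁ y hy
        exact ⟨r, fun _ => hr⟩
      · exact ⟨0, fun h => absurd h hy⟩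
    choose r hr using hex
    refine ⟨eperm σ, ⟨σ, rfl⟩, N * s, r, hN0, ?_, ?_⟩
    · intro y hy
      rw [hblk] at hy
      exact hr y hy
    · rw [hblk]
      intro S hS
      refine odd_of_discr hq hgen hweil hsep b hdisc t ρ₁ r ?_ S hS
      intro y hy
      have h1 := hr y hy
      have h2 := hr (einv y) (by rw [block_inv hq hgen hweil hsep]; exact hy)
      refine ⟨?_, ?_⟩
      · intro h0
        rw [h0] at h1
        exact absurd h1.1 (by decide)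
      · have h3 := h2.2
        rw [hwinv] at h3
        push_cast at h3
        rw [h1.2] at h3
        have h4 : (r (einv y) : ℝ) = - r y := by
          apply mul_left_cancel₀ hN0
          rw [← h3]
          ring
        exact_mod_cast h4

omit [Fintype τ] [∀ t, Fintype (ι t)] in
theorem tower_sq_ne {p a : ℕ} [Fact p.Prime] (ha : 0 < a)
    (hslope : ∀ t, ∃ (ρ : L t →+* PadicAlgCl p) (s : ℝ), s ≠ 0 ∧ GoodPlace L π p a t ρ s)
    {𝕂 : Type*} [Field 𝕂] [CharZero 𝕂] {μ : 𝕂}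
    (hμ : ∃ t i, ∃ χ : K t i →+* 𝕂, χ (π t i) = μ) : μ * μ ≠ ((p ^ a : ℕ) : 𝕂) := by
  obtain ⟨t, i, χ, rfl⟩ := hμ
  intro h
  have h1 : π t i * π t i = ((p ^ a : ℕ) : K t i) :=
    χ.injective (by rw [map_mul, h, map_natCast])
  obtain ⟨σ⟩ : Nonempty (K t i →+* ℂ) := inferInstance
  refine sq_ne (ι := ι) (K := K) ha hslope ⟨⟨t, i⟩, σ⟩ ?_
  change σ (π t i) ^ 2 = _
  rw [pow_two, ← map_mul, h1, map_natCast]

end Pool.Agent.OneFrob
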